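import Pool.Graph.R_seed8.Y806.DM.Main

set_option autoImplicit false

/-! The parametric affine condition as a strong Mal'cev condition, and the divisibility of the
conditions of abelian groups of given exponents. -/

namespace Pool.Agent.KS6_21.SB

open Pool.Agent.Helper470.DimT Pool.Agent.Y806.DM
open Pool.Agent.Helper470.Dim (IsAff p3)

/-- Signature with one symbol: `n + 1` arguments and a parameter. -/
def pSig (n : ℕ) : Sig := ⟨Fin 1, fun _ => n + 2⟩

/-- The sum of `a 0, ..., a n` with the parameter `b`. -/
def pT {n : ℕ} {V : Type} (a : Fin (n + 1) → Term (pSig n) V) (b : Term (pSig n) V) :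
    Term (pSig n) V :=
  .op (0 : Fin 1) (fun i : Fin (n + 2) => if h : i.val < n + 1 then a ⟨i.val, h⟩ else b)

/-- The operation with the parameter `b`. -/
def pS {n : ℕ} {G : Type} (s : Str (pSig n) G) (b : G) (a : Fin (n + 1) → G) : G :=
  s (0 : Fin 1) (fun i : Fin (n + 2) => if h : i.val < n + 1 then a ⟨i.val, h⟩ else b)

theorem eval_pT {n : ℕ} {V G : Type} (s : Str (pSig n) G) (v : V → G)
    (a : Fin (n + 1) → Term (pSig n) V) (b : Term (pSig n) V) :
    (pT a b).eval s v = pS s (b.eval s v) (fun j => (a j).eval s v) := by
  show s (0 : Fin 1) (fun i : Fin (n + 2) => Term.eval s v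
    (if h : i.val < n + 1 then a ⟨i.val, h⟩ else b)) = _
  unfold pS
  congr 1
  funext i
  split_ifs <;> rfl

/-- The identities: symmetry, the law of Mal'cev, associativity. -/
noncomputable def pIds (n : ℕ) : List (Term (pSig n) ℕ × Term (pSig n) ℕ) :=
  (Finset.univ : Finset (Equiv.Perm (Fin (n + 1)))).toList.map (fun τ =>
    (pT (fun j => .var (τ j).val) (.var (n + 1)), pT (fun j => .var j.val) (.var (n + 1)))) ++
  [(pT (fun j => if j = 0 then .var 0 else .var (n + 2)) (.var (n + 1)), .var 0),
    (pT (fun j => if j = 0 then pT (fun k => if k = Fin.last n then .var (n + 2) else .var k.val)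
        (.var (n + 1)) else if j = Fin.last n then .var (n + 3) else .var (n + 2)) (.var (n + 1)),
      pT (fun k => if k = Fin.last n then .var (n + 3) else .var k.val) (.var (n + 1)))]

/-- The parametric affine condition: for every value of the parameter the operation is the
`(n+1)`-ary sum of an abelian group of exponent dividing `n`. -/
noncomputable def aff (n : ℕ) : Cond where
  k := 1
  ar := fun _ => n + 2
  ids := pIds n

/-- The three laws. -/
def Laws {n : ℕ} {G : Type} (S : (Fin (n + 1) → G) → G) : Prop :=
  (∀ (τ : Equiv.Perm (Fin (n + 1))) a, S (a ∘ τ) = S a) ∧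
  (∀ x y, S (fun j => if j = 0 then x else y) = x) ∧
  (∀ (a : Fin (n + 1) → G) u v,
    S (fun j => if j = 0 then S (fun k => if k = Fin.last n then u else a k)
      else if j = Fin.last n then v else u) = S (fun k => if k = Fin.last n then v else a k))

theorem aff_iff {n : ℕ} {G : Type} {s : Str (pSig n) G} :
    (aff n).th.Models s ↔ ∀ b, Laws (pS s b) := by
  classical
  have hmem : ∀ e : Term (pSig n) ℕ × Term (pSig n) ℕ, e ∈ (aff n).th.ids ↔ e ∈ pIds n :=
    fun e => Iff.rfl
  constructor
  · intro h b
    have h' : ∀ e : Term (pSig n) ℕ × Term (pSig n) ℕ, e ∈ (aff n).th.ids →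
      ∀ v : ℕ → G, e.1.eval s v = e.2.eval s v := h
    -- the valuation
    let V : (Fin (n + 1) → G) → G → G → ℕ → G := fun a u w k =>
      if hk : k < n + 1 then a ⟨k, hk⟩ else if k = n + 1 then b else if k = n + 2 then u else w
    have V1 : ∀ a u w (j : Fin (n + 1)), V a u w j.val = a j := by
      intro a u w j
      show (if hk : j.val < n + 1 then a ⟨j.val, hk⟩ else _) = _
      rw [dif_pos j.2]
    have V2 : ∀ a u w, V a u w (n + 1) = b := by
      intro a u w
      simp [V]
    have V3 : ∀ a u w, V a u w (n + 2) = u := by
      intro a u w
      simp [V]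
    have V4 : ∀ a u w, V a u w (n + 3) = w := by
      intro a u w
      simp [V]
    have V0 : ∀ a u w, V a u w 0 = a 0 := fun a u w => V1 a u w 0
    refine ⟨fun τ a => ?_, fun x y => ?_, fun a u v => ?_⟩
    · have := h' _ ((hmem _).2 (List.mem_append_left _ (List.mem_map.2
        ⟨τ, Finset.mem_toList.2 (Finset.mem_univ _), rfl⟩))) (V a b b)
      simp only [eval_pT, Term.eval, V1, V2] at this
      exact this
    · have := h' _ ((hmem (_, _)).2 (List.mem_append_right _ (by left))) (V (fun _ => x) y y)
      rw [eval_pT] at this
      simp only [Term.eval, V2, V0] at this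
      rw [← this]
      congr 1
      funext j
      split_ifs
      · simp only [Term.eval, V0]
        exact this
      · simp only [Term.eval, V3]
    · have := h' _ ((hmem (_, _)).2 (List.mem_append_right _ (by right; left))) (V a u v)
      rw [eval_pT, eval_pT] at this
      simp only [Term.eval, V2] at this
      have e1 : (fun j : Fin (n + 1) => Term.eval s (V a u v) (if j = 0 then
          pT (fun k => if k = Fin.last n then .var (n + 2) else .var k.val) (.var (n + 1))
          else if j = Fin.last n then .var (n + 3) else .var (n + 2))) =
          fun j => if j = 0 then pS s b (fun k => if k = Fin.last n then u else a k)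
            else if j = Fin.last n then v else u := by
        funext j
        split_ifs
        · rw [eval_pT]
          simp only [Term.eval, V2]
          congr 1
          funext k
          split_ifs
          · simp only [Term.eval, V3]
          · simp only [Term.eval, V1]
        · simp only [Term.eval, V4]
        · simp only [Term.eval, V3]
      have e2 : (fun j : Fin (n + 1) => Term.eval s (V a u v)
          (if j = Fin.last n then .var (n + 3) else .var j.val)) =
          fun j => if j = Fin.last n then v else a j := by
        funext j
        split_ifs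
        · simp only [Term.eval, V4]
        · simp only [Term.eval, V1]
      rw [e1, e2] at this
      exact this
  · intro h
    have h' : ∀ e : Term (pSig n) ℕ × Term (pSig n) ℕ, e ∈ (aff n).th.ids →
      ∀ v : ℕ → G, e.1.eval s v = e.2.eval s v := by
      intro e he v
      rw [hmem, pIds, List.mem_append] at he
      rcases he with he | he
      · obtain ⟨τ, -, rfl⟩ := List.mem_map.1 he
        simp only [eval_pT, Term.eval]
        exact (h _).1 τ (fun j => v j.val)
      · simp only [List.mem_cons, List.not_mem_nil, or_false] at he
        rcases he with rfl | rfl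
        · rw [eval_pT]
          simp only [Term.eval]
          have := (h (v (n + 1))).2.1 (v 0) (v (n + 2))
          refine Eq.trans ?_ this
          congr 1
          funext j
          split_ifs <;> rfl
        · rw [eval_pT, eval_pT]
          simp only [Term.eval]
          have := (h (v (n + 1))).2.2 (fun j => v j.val) (v (n + 2)) (v (n + 3))
          refine Eq.trans ?_ (this.trans ?_)
          · congr 1
            funext j
            split_ifs
            · rw [eval_pT]
              simp only [Term.eval]
              congr 1
              funext k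
              split_ifs <;> rfl
            · rfl
            · rfl
          · congr 1
            funext j
            split_ifs <;> rfl
    exact h'

theorem laws_of_isAff {n : ℕ} (hn : 2 ≤ n) {G : Type} {S : (Fin (n + 1) → G) → G}
    (h : IsAff n S) : Laws S := by
  classical
  refine ⟨fun τ a => h.perm τ a, fun x y => h.single 0 x y, fun a u v => ?_⟩
  have e : ∀ w : G, (fun k => if k = Fin.last n then w else a k) =
      Function.update a (Fin.last n) w := by
    intro w
    funext k
    by_cases hk : k = Fin.last n
    · subst hk; simp
    · simp [hk]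
  rw [e, e]
  have := h.replace hn (Function.update a (Fin.last n) v) (Fin.last n) u
  rw [Function.update_idem, Function.update_self] at this
  exact this

theorem isAff_of_laws {n : ℕ} (hn : 2 ≤ n) {G : Type} [Nonempty G] {S : (Fin (n + 1) → G) → G}
    (h : Laws S) : IsAff n S := isAffOf G n hn S h.1 h.2.1 h.2.2

/-- The condition `aff n` says exactly that there is a parametric affine term. -/
theorem satisfies_aff {n : ℕ} (hn : 2 ≤ n) {V : Theory} : V.Satisfies (aff n) ↔ PA V n := by
  constructor
  · intro h
    refine PA.mono (satisfies_iff.1 h) ⟨.op (0 : Fin 1) (fun i : Fin (n + 2) =>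
      if h : i.val < n + 1 then .var (Sum.inl ⟨i.val, h⟩) else .var (Sum.inr ())), ?_⟩
    intro M m hm b
    have : Nonempty M := ⟨b⟩
    have h1 := isAff_of_laws hn ((aff_iff (s := m)).1 hm b)
    have e : (fun a : Fin (n + 1) → M => Term.eval m (Sum.elim a (fun _ => b))
        (.op (0 : Fin 1) (fun i : Fin (n + 2) =>
          if h : i.val < n + 1 then .var (Sum.inl ⟨i.val, h⟩) else .var (Sum.inr ())) :
          Term (pSig n) (Fin (n + 1) ⊕ Unit))) = pS m b := by
      funext a
      show m (0 : Fin 1) (fun i : Fin (n + 2) => Term.eval m (Sum.elim a (fun _ => b))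
        (if h : i.val < n + 1 then .var (Sum.inl ⟨i.val, h⟩) else .var (Sum.inr ()))) = _
      unfold pS
      congr 1
      funext i
      split_ifs <;> rfl
    exact (congrArg (IsAff n) e).mpr h1
  · rintro ⟨t, ht⟩
    rw [satisfies_iff]
    let q : Term V.sig (Fin (n + 2)) := t.subst
      (Sum.elim (fun j : Fin (n + 1) => .var j.castSucc) (fun _ => .var (Fin.last (n + 1))))
    refine ⟨fun _ => q, ?_⟩
    intro M m hm
    show (aff n).th.Models (fun f a => q.eval m a : Str (pSig n) M)
    rw [aff_iff]
    intro b
    refine laws_of_isAff hn ?_
    have h1 := ht M m hm b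
    have e : pS (fun f a => q.eval m a : Str (pSig n) M) b =
        fun a => t.eval m (Sum.elim a (fun _ => b)) := by
      funext a
      show q.eval m (fun i : Fin (n + 2) => if h : i.val < n + 1 then a ⟨i.val, h⟩ else b) = _
      simp only [q, Term.eval_subst]
      congr 1
      funext x
      rcases x with j | x
      · show (if h : (j.castSucc : Fin (n + 2)).val < n + 1 then a ⟨_, h⟩ else b) = a j
        rw [dif_pos (show (j.castSucc : Fin (n + 2)).val < n + 1 from j.2)]
        rfl
      · show (if h : (Fin.last (n + 1)).val < n + 1 then a ⟨_, h⟩ else b) = b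
        rw [dif_neg (by simp)]
    rw [e]
    exact h1

/-- The condition that all models have at most one element. -/
def trv : Cond where
  k := 0
  ar := fun i => i.elim0
  ids := [(.var 0, .var 1)]

theorem satisfies_trv {V : Theory} : V.Satisfies trv ↔ Triv V := by
  constructor
  · rintro ⟨t, ht⟩ M m hm
    refine ⟨fun x y => ?_⟩
    have h1 := ht (.var 0, .var 1) (List.mem_singleton.2 rfl) M m hm (fun k => if k = 0 then x else y)
    simpa [Term.repl, Term.eval] using h1
  · intro h
    refine ⟨fun i => i.elim0, ?_⟩
    intro e he M m hm v
    exact (h M m hm).elim _ _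

end Pool.Agent.KS6_21.SB
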