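import Pool.Agent.KS6_21.SB.Aff

set_option autoImplicit false

/-! All generating sets and all bases of the SC-theory of a variety of abelian groups. -/

namespace Pool.Agent.KS6_21.SB

open Pool.Agent.Helper470.DimT Pool.Agent.Y806.DM

/-- The condition `σ` implies the condition `τ`. -/
def Implies (σ τ : Cond) : Prop := ∀ V : Theory, V.Satisfies σ → V.Satisfies τ

theorem Implies.refl (σ : Cond) : Implies σ σ := fun _ h => h

theorem Implies.trans {σ τ ρ : Cond} (h : Implies σ τ) (h' : Implies τ ρ) : Implies σ ρ :=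
  fun V hV => h' V (h V hV)

/-- The second prime condition. -/
noncomputable def prm (n : ℕ) : Cond := if n = 1 then trv else aff n

theorem prm_one : prm 1 = trv := if_pos rfl

theorem prm_of {n : ℕ} (hn : n ≠ 1) : prm n = aff n := if_neg hn

section
variable {k0 : ℕ} {A : Type} [CommGroup A]

theorem alpha_of_cst_prm {n : ℕ} (hn0 : n ≠ 0) {V : Theory} (h1 : V.Satisfies (cst k0))
    (h2 : V.Satisfies (prm n)) : V.Satisfies (alpha k0 n) := by
  have hc := satisfies_cst.1 h1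
  by_cases hn : n = 1
  · subst hn
    rw [prm_one] at h2
    exact alpha_of_const_triv hc (satisfies_trv.1 h2)
  · rw [prm_of hn] at h2
    have h3 : 2 ≤ n := by omega
    exact alpha_of_const_pa h3 hc ((satisfies_aff h3).1 h2)

theorem prm_of_alpha {n : ℕ} (hn0 : n ≠ 0) {V : Theory} (h : V.Satisfies (alpha k0 n)) :
    V.Satisfies (prm n) := by
  by_cases hn : n = 1
  · subst hn
    rw [prm_one]
    exact satisfies_trv.2 (triv_of_alpha h)
  · rw [prm_of hn]
    exact (satisfies_aff (by omega)).2 (pa_of_alpha h)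

theorem cst_of_alpha {n : ℕ} {V : Theory} (h : V.Satisfies (alpha k0 n)) :
    V.Satisfies (cst k0) := satisfies_cst.2 (const_of_alpha h)

theorem prm_mem (hk : k0 ≤ 1) (hn0 : Monoid.exponent A ≠ 0) :
    prm (Monoid.exponent A) ∈ SC (adm k0) (VG A) := by
  refine ⟨?_, prm_of_alpha hn0 (VG_alpha k0 A)⟩
  by_cases hn : Monoid.exponent A = 1
  · rw [hn, prm_one]
    exact fun i => i.elim0
  · rw [prm_of hn]
    intro i
    show k0 ≤ Monoid.exponent A + 2
    omega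

/-- A finite set of conditions as a join. -/
theorem join_of {Γ : Set Cond} (hfin : Γ.Finite) {τ : Cond} (himp : ImpliedBy Γ τ) :
    ∃ (k : ℕ) (c : Fin k → Cond), (∀ j, c j ∈ Γ) ∧ (join fun j => (c j).th).Satisfies τ := by
  have : Finite Γ := hfin
  obtain ⟨k, ⟨e⟩⟩ := Finite.exists_equiv_fin Γ
  refine ⟨k, fun j => (e.symm j).1, fun j => (e.symm j).2, ?_⟩
  apply himp
  intro σ hσ
  rw [satisfies_iff]
  have := interp_join (fun j => ((e.symm j).1 : Cond).th) (e ⟨σ, hσ⟩)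
  simp only [Equiv.symm_apply_apply] at this
  exact this

theorem count_op (c : Cond) : Countable (c.th).sig.Op := (inferInstance : Countable (Fin c.k))

/-- The existence of a constant is a prime condition. -/
theorem cst_prime (hk : k0 ≤ 1) {Γ : Set Cond} (hΓ : ∀ σ ∈ Γ, adm k0 σ) (hfin : Γ.Finite)
    (himp : ImpliedBy Γ (cst k0)) : ∃ σ ∈ Γ, Implies σ (cst k0) := by
  obtain ⟨k, c, hc, hJ⟩ := join_of hfin himp
  obtain ⟨j, hj⟩ := cpr hk k (fun j => (c j).th) (fun i f => hΓ _ (hc i) f)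
    (fun i => count_op _) (satisfies_cst.1 hJ)
  exact ⟨c j, hc j, fun V hV => satisfies_cst.2 (hj.mono (satisfies_iff.1 hV))⟩

/-- The parametric affine condition is prime in the SC-theory. -/
theorem prm_prime (hn0 : Monoid.exponent A ≠ 0) {Γ : Set Cond}
    (hΓ : ∀ σ ∈ Γ, (VG A).Satisfies σ) (hfin : Γ.Finite)
    (himp : ImpliedBy Γ (prm (Monoid.exponent A))) :
    ∃ σ ∈ Γ, Implies σ (prm (Monoid.exponent A)) := by
  obtain ⟨k, c, hc, hJ⟩ := join_of hfin himp
  by_cases hn : Monoid.exponent A = 1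
  · rw [hn, prm_one] at hJ ⊢
    obtain ⟨j, hj⟩ := trivPrime k (fun j => (c j).th) (fun i => count_op _) (satisfies_trv.1 hJ)
    exact ⟨c j, hc j, fun V hV => satisfies_trv.2 (hj.mono (satisfies_iff.1 hV))⟩
  · rw [prm_of hn] at hJ ⊢
    have hn2 : 2 ≤ Monoid.exponent A := by omega
    obtain ⟨j, hj⟩ := pa_prime_fin hn2 (papr _ hn2) k (fun j => (c j).th) (fun i => count_op _)
      (fun i => HasLin.mono (satisfies_iff.1 (hΓ _ (hc i))) (hasLin_VG A))
      ((satisfies_aff hn2).1 hJ)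
    exact ⟨c j, hc j, fun V hV => (satisfies_aff hn2).2 (hj.mono (satisfies_iff.1 hV))⟩

theorem not_cst_prm (hk : k0 ≤ 1) (hn0 : Monoid.exponent A ≠ 0) :
    ¬ Implies (cst k0) (prm (Monoid.exponent A)) := by
  intro h
  have h1 := sat_self (cst k0)
  have h2 := alpha_of_cst_prm hn0 h1 (h _ h1)
  exact not_cst_heap k0 (Monoid.exponent A)
    (alpha_implies h2 (heap_mem (A := A) hk).1 (heap_mem (A := A) hk).2)

theorem heap_ne_cst (n : ℕ) : heap n ≠ cst k0 := by
  intro he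
  have h1 := sat_self (cst k0)
  have h2 := not_cst_heap k0 n
  rw [he] at h2
  exact h2 h1

theorem heap_prm (hk : k0 ≤ 1) (hn0 : Monoid.exponent A ≠ 0) :
    Implies (heap (Monoid.exponent A)) (prm (Monoid.exponent A)) := by
  obtain ⟨σ, hσ, h⟩ := prm_prime (A := A) hn0 (Γ := {heap (Monoid.exponent A), cst k0}) (by
    rintro σ (rfl | rfl)
    · exact VG_heap A
    · exact (cst_mem (k0 := k0) (A := A)).2) (by simp) (fun V hV => by
    refine prm_of_alpha hn0 (alpha_of_heap_const (k0 := k0) (hV _ (by simp)) ?_)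
    exact satisfies_cst.1 (hV _ (by simp)))
  rcases hσ with rfl | rfl
  · exact h
  · exact absurd h (not_cst_prm hk hn0)

theorem not_prm_cst (hk : k0 ≤ 1) (hn0 : Monoid.exponent A ≠ 0)
    (h : k0 = 0 ∨ Monoid.exponent A ≠ 1) :
    ¬ Implies (prm (Monoid.exponent A)) (cst k0) := by
  intro h1
  exact not_heap_cst h (satisfies_cst.1 (h1 _ (heap_prm (A := A) hk hn0 _ (sat_self _))))

theorem implied_of (hn0 : Monoid.exponent A ≠ 0) {V : Theory} (h1 : V.Satisfies (cst k0))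
    (h2 : V.Satisfies (prm (Monoid.exponent A))) {τ : Cond} (hτ : τ ∈ SC (adm k0) (VG A)) :
    V.Satisfies τ := alpha_implies (alpha_of_cst_prm hn0 h1 h2) hτ.1 hτ.2

/-- All generating sets. -/
theorem generates_iff (hk : k0 ≤ 1) (hn0 : Monoid.exponent A ≠ 0) {B : Set Cond}
    (hB : B ⊆ SC (adm k0) (VG A)) :
    Generates B (SC (adm k0) (VG A)) ↔
      (∃ σ ∈ B, Implies σ (cst k0)) ∧ ∃ τ ∈ B, Implies τ (prm (Monoid.exponent A)) := by
  constructor
  · intro h
    constructor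
    · obtain ⟨Γ, h1, h2, h3⟩ := h (cst k0) cst_mem
      obtain ⟨σ, hσ, h4⟩ := cst_prime hk (fun σ hσ => (hB (h1 hσ)).1) h2 h3
      exact ⟨σ, h1 hσ, h4⟩
    · obtain ⟨Γ, h1, h2, h3⟩ := h _ (prm_mem (A := A) hk hn0)
      obtain ⟨σ, hσ, h4⟩ := prm_prime (A := A) hn0 (fun σ hσ => (hB (h1 hσ)).2) h2 h3
      exact ⟨σ, h1 hσ, h4⟩
  · rintro ⟨⟨σ, hσ, h1⟩, τ, hτ, h2⟩ ρ hρ
    refine ⟨{σ, τ}, ?_, by simp, fun V hV => ?_⟩
    · rintro x (rfl | rfl)
      · exact hσ
      · exact hτ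
    · exact implied_of hn0 (h1 V (hV _ (by simp))) (h2 V (hV _ (by simp))) hρ

theorem isBasis_one (hn0 : Monoid.exponent A ≠ 0) {σ : Cond}
    (hσ : σ ∈ SC (adm k0) (VG A)) (h1 : Implies σ (cst k0))
    (h2 : Implies σ (prm (Monoid.exponent A))) : IsBasis {σ} (SC (adm k0) (VG A)) :=
  isBasis_single hσ fun V hV => alpha_of_cst_prm hn0 (h1 V hV) (h2 V hV)

theorem isBasis_two (hk : k0 ≤ 1) (hn0 : Monoid.exponent A ≠ 0) {σ τ : Cond}
    (hσ : σ ∈ SC (adm k0) (VG A)) (hτ : τ ∈ SC (adm k0) (VG A)) (h1 : Implies σ (cst k0))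
    (h2 : ¬ Implies σ (prm (Monoid.exponent A))) (h3 : Implies τ (prm (Monoid.exponent A)))
    (h4 : ¬ Implies τ (cst k0)) : IsBasis {σ, τ} (SC (adm k0) (VG A)) := by
  have hB : ({σ, τ} : Set Cond) ⊆ SC (adm k0) (VG A) := by
    rintro x (rfl | rfl)
    · exact hσ
    · exact hτ
  refine ⟨hB, (generates_iff hk hn0 hB).2 ⟨⟨σ, by simp, h1⟩, τ, by simp, h3⟩, ?_⟩
  rintro ρ (rfl | hρ) ⟨Γ, hΓ, -, himp⟩
  · apply h4
    intro V hV
    refine h1 V (himp V fun ξ hξ => ?_)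
    have h5 := hΓ hξ
    rcases h5.1 with h6 | h6
    · exact absurd h6 h5.2
    · rw [Set.mem_singleton_iff.1 h6]
      exact hV
  · have hρ' := Set.mem_singleton_iff.1 hρ
    subst hρ'
    apply h2
    intro V hV
    refine h3 V (himp V fun ξ hξ => ?_)
    have h5 := hΓ hξ
    rcases h5.1 with h6 | h6
    · rw [h6]
      exact hV
    · exact absurd h6 h5.2

/-- All bases. -/
theorem isBasis_iff (hk : k0 ≤ 1) (hn0 : Monoid.exponent A ≠ 0) (B : Set Cond) :
    IsBasis B (SC (adm k0) (VG A)) ↔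
      (∃ σ ∈ SC (adm k0) (VG A), B = {σ} ∧ Implies σ (cst k0) ∧
        Implies σ (prm (Monoid.exponent A))) ∨
      ∃ σ ∈ SC (adm k0) (VG A), ∃ τ ∈ SC (adm k0) (VG A), B = {σ, τ} ∧ Implies σ (cst k0) ∧
        ¬ Implies σ (prm (Monoid.exponent A)) ∧ Implies τ (prm (Monoid.exponent A)) ∧
        ¬ Implies τ (cst k0) := by
  constructor
  · intro hB
    obtain ⟨⟨σ, hσ, h1⟩, τ, hτ, h2⟩ := (generates_iff hk hn0 hB.1).1 hB.2.1
    by_cases h3 : Implies σ (prm (Monoid.exponent A))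
    · left
      refine ⟨σ, hB.1 hσ, ?_, h1, h3⟩
      exact basis_eq hB (by simpa using hσ) (isBasis_one hn0 (hB.1 hσ) h1 h3).2.1
    by_cases h4 : Implies τ (cst k0)
    · left
      refine ⟨τ, hB.1 hτ, ?_, h4, h2⟩
      exact basis_eq hB (by simpa using hτ) (isBasis_one hn0 (hB.1 hτ) h4 h2).2.1
    right
    refine ⟨σ, hB.1 hσ, τ, hB.1 hτ, ?_, h1, h3, h2, h4⟩
    refine basis_eq hB ?_ (isBasis_two hk hn0 (hB.1 hσ) (hB.1 hτ) h1 h3 h2 h4).2.1
    rintro x (rfl | rfl)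
    · exact hσ
    · exact hτ
  · rintro (⟨σ, hσ, rfl, h1, h2⟩ | ⟨σ, hσ, τ, hτ, rfl, h1, h2, h3, h4⟩)
    · exact isBasis_one hn0 hσ h1 h2
    · exact isBasis_two hk hn0 hσ hτ h1 h2 h3 h4

end

end Pool.Agent.KS6_21.SB
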