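import Pool.Agent.KS6_21.SB.Bases

set_option autoImplicit false

/-! The conditions of abelian groups of given exponents, and infinitely many bases. -/

namespace Pool.Agent.KS6_21.SB

open Pool.Agent.Helper470.DimT Pool.Agent.Y806.DM

section
variable {k0 : ℕ}

theorem alpha_dvd {N N' : ℕ} (h : N ∣ N') : Implies (alpha k0 N) (alpha k0 N') := by
  intro V hV
  rw [satisfies_iff] at *
  refine Interp.trans ?_ hV
  refine ⟨fun f => .op f (fun i => .var i), fun M m hm => ?_⟩
  show (alpha k0 N').th.Models (m : Str (alphaSig k0) M)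
  by_cases hM : Nonempty M
  · obtain ⟨x0⟩ := hM
    obtain ⟨g, g1, g2, g3, g4⟩ := alpha_group (s := m) x0 hm
    refine alpha_of_group g1 g2 g3 (fun a => ?_)
    obtain ⟨q, rfl⟩ := h
    rw [pow_mul, g4, one_pow]
  · intro e _ v
    exact absurd ⟨v 0⟩ hM

/-- The coefficients of the group operations. -/
def gc (k0 N : ℕ) : (f : (alphaSig k0).Op) → Fin ((alphaSig k0).ar f) → ZMod N :=
  fun f _ => if (show Fin 3 from f) = 0 then 1 else if (show Fin 3 from f) = 1 then -1 else 0

theorem gc_models (N : ℕ) : (alpha k0 N).th.Models (linStr (gc k0 N)) := by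
  let G : CommGroup (ZMod N) := (inferInstance : CommGroup (Multiplicative (ZMod N)))
  have hM : ∀ a b : ZMod N, sM (linStr (gc k0 N)) a b = a + b := by
    intro a b
    show ∑ i : Fin 2, gc k0 N (0 : Fin 3) i * (if i = 0 then a else b) = a + b
    rw [Fin.sum_univ_two]
    simp [gc]
  have hI : ∀ a : ZMod N, sI (linStr (gc k0 N)) a = -a := by
    intro a
    show ∑ i : Fin 1, gc k0 N (1 : Fin 3) i * a = -a
    rw [Fin.sum_univ_one]
    simp [gc]
  have hE : ∀ v, sE (linStr (gc k0 N)) v = (0 : ZMod N) := by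
    intro v
    show ∑ i : Fin k0, gc k0 N (2 : Fin 3) i * v i = 0
    simp [gc]
  refine @alpha_of_group k0 (ZMod N) (linStr (gc k0 N)) N G hM hI hE ?_
  intro a
  show (N • a : ZMod N) = 0
  simp

theorem dvd_of_alpha {N N' : ℕ} (h : Implies (alpha k0 N) (alpha k0 N')) : N ∣ N' := by
  obtain ⟨t, ht⟩ := satisfies_iff.1 (h _ (sat_self (alpha k0 N)))
  have hm := ht (ZMod N) _ (gc_models (k0 := k0) N)
  choose d hd using fun f : (alphaSig k0).Op => eval_linStr (gc k0 N)
    (t f : Term (alphaSig k0) (Fin ((alphaSig k0).ar f)))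
  set s : Str (alphaSig k0) (ZMod N) := fun f a => (t f).eval (linStr (gc k0 N)) a with hs
  have hm' : (alpha k0 N').th.Models s := hm
  obtain ⟨h1, h2, h3, h4, h5, h6⟩ := alpha_iff.1 hm'
  obtain ⟨g, -, -, g3, -⟩ := alpha_group (s := s) 0 hm'
  have hE : ∀ v, sE s v = 0 := by
    intro v
    rw [g3 v, ← g3 (fun _ => 0)]
    have := hd (2 : Fin 3) (fun _ => 0)
    exact this.trans (by simp)
  obtain ⟨p, q, hM⟩ : ∃ p q : ZMod N, ∀ x y, sM s x y = p * x + q * y := by
    refine ⟨d (0 : Fin 3) (0 : Fin 2), d (0 : Fin 3) (1 : Fin 2), fun x y => ?_⟩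
    refine (hd (0 : Fin 3) (fun i : Fin 2 => if i = 0 then x else y)).trans ?_
    show ∑ i : Fin 2, d (0 : Fin 3) i * (if i = 0 then x else y) = _
    rw [Fin.sum_univ_two]
    simp
  have hq : q = 1 := by
    have := h3 (fun _ => 1)
    rw [hE, hM] at this
    simpa using this
  have hp : p = 1 := by
    have := h2 1 0
    rw [hM, hM] at this
    simpa [hq] using this
  have h7 := h5 (fun _ => 1)
  rw [eval_aPow_of hE, hE] at h7
  have key : ∀ k : ℕ, (fun w => sM s 1 w)^[k] 0 = (k : ZMod N) := by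
    intro k
    induction k with
    | zero => simp
    | succ k ih =>
      rw [Function.iterate_succ_apply', ih, hM, hp, hq]
      push_cast
      ring
  rw [key] at h7
  exact (ZMod.natCast_eq_zero_iff N' N).1 h7

theorem alpha_implies_iff {N N' : ℕ} : Implies (alpha k0 N) (alpha k0 N') ↔ N ∣ N' :=
  ⟨dvd_of_alpha, alpha_dvd⟩

variable {A : Type} [CommGroup A]

/-- Infinitely many bases of length two. -/
theorem isBasis_fam (hk : k0 ≤ 1) (hn0 : Monoid.exponent A ≠ 0)
    (h : k0 = 0 ∨ Monoid.exponent A ≠ 1) {m : ℕ} (hm : 2 ≤ m) :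
    IsBasis {alpha k0 (Monoid.exponent A * m), heap (Monoid.exponent A)}
      (SC (adm k0) (VG A)) := by
  refine isBasis_two hk hn0 ⟨alpha_adm hk _, alpha_dvd (Dvd.intro _ rfl) _ (VG_alpha k0 A)⟩
    (heap_mem hk) (fun V hV => cst_of_alpha hV) ?_ (heap_prm hk hn0) ?_
  · intro h1
    have h2 : Implies (alpha k0 (Monoid.exponent A * m)) (alpha k0 (Monoid.exponent A)) :=
      fun V hV => alpha_of_cst_prm hn0 (cst_of_alpha hV) (h1 V hV)
    have h3 := Nat.le_of_dvd (Nat.pos_of_ne_zero hn0) (dvd_of_alpha h2)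
    have h4 : 0 < Monoid.exponent A := Nat.pos_of_ne_zero hn0
    nlinarith
  · intro h1
    exact not_heap_cst h (satisfies_cst.1 (h1 _ (sat_self _)))

theorem fam_iff (hn0 : Monoid.exponent A ≠ 0) (m m' : ℕ) :
    Implies (alpha k0 (Monoid.exponent A * m)) (alpha k0 (Monoid.exponent A * m')) ↔ m ∣ m' := by
  rw [alpha_implies_iff]
  exact Nat.mul_dvd_mul_iff_left (Nat.pos_of_ne_zero hn0)

end

end Pool.Agent.KS6_21.SB
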