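import Pool.Agent.KS6_21.SB.Fam

set_option autoImplicit false

/-! The structure of the SC-theory of a variety of abelian groups: all generating sets, all bases,
infinitely many bases. -/

namespace Pool.Agent.KS6_21.SB

open Pool.Agent.Helper470.DimT Pool.Agent.Y806.DM

/-- The set of conditions `C` is generated by two prime conditions: there are two members
`γ`, `π` of `C`, neither of which implies the other, such that
(1) both are prime: if a finite set of members of `C` implies `γ` (resp. `π`), then one of its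
members does;
(2) `γ` and `π` together imply all members of `C`;
(3) a subset of `C` generates `C` if and only if it has a member implying `γ` and a member implying
`π`;
(4) the bases of `C` are the sets `{σ}` with `σ` implying both `γ` and `π`, and the sets `{σ, τ}`
with `σ` implying `γ` and not `π`, and `τ` implying `π` and not `γ`;
(5) any two bases with one element are equivalent;
(6) there are a condition `η` and a sequence of conditions `β m` such that `{β m, η}` is a basis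
with two elements for all `m ≥ 2`, and `β m` implies `β m'` if and only if `m` divides `m'`; in
particular there are infinitely many pairwise inequivalent bases with two elements. -/
def TwoPrimes (C : Set Cond) : Prop :=
  ∃ γ ∈ C, ∃ π ∈ C, ¬ Implies γ π ∧ ¬ Implies π γ ∧
    (∀ Γ ⊆ C, Γ.Finite → (ImpliedBy Γ γ ↔ ∃ σ ∈ Γ, Implies σ γ)) ∧
    (∀ Γ ⊆ C, Γ.Finite → (ImpliedBy Γ π ↔ ∃ σ ∈ Γ, Implies σ π)) ∧
    (∀ τ ∈ C, ImpliedBy {γ, π} τ) ∧
    (∀ B ⊆ C, (Generates B C ↔ (∃ σ ∈ B, Implies σ γ) ∧ ∃ τ ∈ B, Implies τ π)) ∧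
    (∀ B : Set Cond, IsBasis B C ↔
      (∃ σ ∈ C, B = {σ} ∧ Implies σ γ ∧ Implies σ π) ∨
      ∃ σ ∈ C, ∃ τ ∈ C, B = {σ, τ} ∧ Implies σ γ ∧ ¬ Implies σ π ∧ Implies τ π ∧
        ¬ Implies τ γ) ∧
    (∀ σ σ' : Cond, IsBasis {σ} C → IsBasis {σ'} C → Implies σ σ') ∧
    ∃ (η : Cond) (β : ℕ → Cond), (∀ m, 2 ≤ m → β m ≠ η ∧ IsBasis {β m, η} C) ∧
      ∀ m m', Implies (β m) (β m') ↔ m ∣ m'

/-- The case of one prime condition `π`: it implies all members of `C`, and a finite set of members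
of `C` implies it only if one of its members does; the bases are the sets `{σ}` with `σ` in `C`
equivalent to `π`. -/
def OnePrime (C : Set Cond) : Prop :=
  ∃ π ∈ C, (∀ Γ ⊆ C, Γ.Finite → (ImpliedBy Γ π ↔ ∃ σ ∈ Γ, Implies σ π)) ∧
    (∀ τ ∈ C, Implies π τ) ∧
    (∀ B ⊆ C, (Generates B C ↔ ∃ σ ∈ B, Implies σ π)) ∧
    ∀ B : Set Cond, IsBasis B C ↔ ∃ σ ∈ C, B = {σ} ∧ Implies σ π

theorem basis_unique {C : Set Cond} {σ σ' : Cond} (h : IsBasis {σ} C) (h' : IsBasis {σ'} C) :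
    Implies σ σ' := by
  obtain ⟨Γ, h1, -, h3⟩ := h.2.1 σ' (h'.1 rfl)
  intro V hV
  refine h3 V fun ρ hρ => ?_
  rw [Set.mem_singleton_iff.1 (h1 hρ)]
  exact hV

section
variable {k0 : ℕ} {A : Type} [CommGroup A]

theorem twoPrimes (hk : k0 ≤ 1) (hn0 : Monoid.exponent A ≠ 0)
    (h : k0 = 0 ∨ Monoid.exponent A ≠ 1) : TwoPrimes (SC (adm k0) (VG A)) := by
  refine ⟨cst k0, cst_mem, prm (Monoid.exponent A), prm_mem hk hn0, not_cst_prm hk hn0,
    not_prm_cst hk hn0 h, fun Γ hΓ hfin => ⟨?_, ?_⟩, fun Γ hΓ hfin => ⟨?_, ?_⟩, ?_, ?_, ?_, ?_,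
    heap (Monoid.exponent A), fun m => alpha k0 (Monoid.exponent A * m), ?_, ?_⟩
  · exact cst_prime hk (fun σ hσ => (hΓ hσ).1) hfin
  · rintro ⟨σ, hσ, h1⟩ V hV
    exact h1 V (hV σ hσ)
  · exact prm_prime hn0 (fun σ hσ => (hΓ hσ).2) hfin
  · rintro ⟨σ, hσ, h1⟩ V hV
    exact h1 V (hV σ hσ)
  · exact fun τ hτ V hV => implied_of hn0 (hV _ (by simp)) (hV _ (by simp)) hτ
  · exact fun B hB => generates_iff hk hn0 hB
  · exact fun B => isBasis_iff hk hn0 B
  · exact fun σ σ' => basis_unique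
  · intro m hm
    refine ⟨?_, isBasis_fam hk hn0 h hm⟩
    intro he
    have h1 : (alpha k0 (Monoid.exponent A * m)).k = (heap (Monoid.exponent A)).k :=
      congrArg Cond.k he
    exact absurd h1 (by show ¬ (3 = 1); decide)
  · exact fun m m' => fam_iff hn0 m m'

theorem triv_implies {V : Theory} (h : V.Satisfies trv) {τ : Cond}
    (hn : Monoid.exponent A = 1) (hτ : τ ∈ SC (adm 1) (VG A)) : V.Satisfies τ := by
  have hV : Triv V := satisfies_trv.1 h
  have h1 : V.Satisfies (alpha 1 (Monoid.exponent A)) := by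
    rw [hn]
    refine alpha_of_const_triv ⟨.var 0, fun M m hm v w => ?_⟩ hV
    have := hV M m hm
    exact Subsingleton.elim _ _
  exact alpha_implies h1 hτ.1 hτ.2

theorem onePrime (hn : Monoid.exponent A = 1) : OnePrime (SC (adm 1) (VG A)) := by
  have hn0 : Monoid.exponent A ≠ 0 := by omega
  have hmem : trv ∈ SC (adm 1) (VG A) := by
    have := prm_mem (k0 := 1) (A := A) le_rfl hn0
    rwa [hn, prm_one] at this
  have hpr : ∀ Γ ⊆ SC (adm 1) (VG A), Γ.Finite → ImpliedBy Γ trv → ∃ σ ∈ Γ, Implies σ trv := by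
    intro Γ hΓ hfin h
    have := prm_prime (A := A) hn0 (fun σ hσ => (hΓ hσ).2) hfin
    rw [hn, prm_one] at this
    exact this h
  have hgen : ∀ B ⊆ SC (adm 1) (VG A),
      (Generates B (SC (adm 1) (VG A)) ↔ ∃ σ ∈ B, Implies σ trv) := by
    intro B hB
    constructor
    · intro h
      obtain ⟨Γ, h1, h2, h3⟩ := h trv hmem
      obtain ⟨σ, hσ, h4⟩ := hpr Γ (fun x hx => hB (h1 hx)) h2 h3
      exact ⟨σ, h1 hσ, h4⟩
    · rintro ⟨σ, hσ, h⟩ ρ hρ
      refine ⟨{σ}, by simpa using hσ, Set.finite_singleton _, fun V hV => ?_⟩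
      exact triv_implies (h V (hV _ rfl)) hn hρ
  refine ⟨trv, hmem, fun Γ hΓ hfin => ⟨hpr Γ hΓ hfin, ?_⟩, ?_, hgen, fun B => ⟨?_, ?_⟩⟩
  · rintro ⟨σ, hσ, h1⟩ V hV
    exact h1 V (hV σ hσ)
  · exact fun τ hτ V hV => triv_implies hV hn hτ
  · intro hB
    obtain ⟨σ, hσ, h⟩ := (hgen B hB.1).1 hB.2.1
    refine ⟨σ, hB.1 hσ, ?_, h⟩
    refine basis_eq hB (by simpa using hσ) ?_
    exact (hgen _ (by simpa using hB.1 hσ)).2 ⟨σ, rfl, h⟩
  · rintro ⟨σ, hσ, rfl, h⟩
    refine isBasis_single hσ fun V hV => ?_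
    exact triv_implies (h V hV) hn (alpha_mem le_rfl)

end

end Pool.Agent.KS6_21.SB
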